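import Mathlib
import Pool.Agent.Helper55.SeqPickForce

/-!
Sequential picking with rebundling (MP_e21010_lc, Q1): there is no absolute constant `C` for which
some partitioning strategy always guarantees every agent its proportional share minus `C`.
-/

open Finset

namespace Pool.Agent.Results.MP_e21010_lc.NoConstantDeficit

/-- An instance with agents `Fin n`, items `Fin m` and additive valuations with item values
in `[0,1]`. -/
structure Instance (n m : ℕ) where
  /-- the value of an item to an agent -/
  v : Fin n → Fin m → ℝ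
  nonneg : ∀ i g, 0 ≤ v i g
  le_one : ∀ i g, v i g ≤ 1

/-- The value `v_i(A)` of a set of items. -/
def Instance.value {n m : ℕ} (I : Instance n m) (i : Fin n) (A : Finset (Fin m)) : ℝ :=
  ∑ g ∈ A, I.v i g

/-- The proportional share `PROP_i = v_i([m]) / n`. -/
noncomputable def Instance.propShare {n m : ℕ} (I : Instance n m) (i : Fin n) : ℝ :=
  I.value i Finset.univ / n

/-- A partitioning strategy.  The arrivals are numbered `0, …, n - 1`.  Just before arrival `t`,
knowing the parts taken in the arrivals before `t`, the strategy labels every item by one of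
`n - t` labels; the parts are the sets of remaining items with equal label (labels of items
already taken play no role). -/
def Strategy (n m : ℕ) : Type :=
  (t : Fin n) → (Fin t.val → Finset (Fin m)) → Fin m → Fin (n - t.val)

/-- The items not yet taken just before arrival `t`, if `pick r` is the part taken in
arrival `r`. -/
def remaining {n m : ℕ} (pick : Fin n → Finset (Fin m)) (t : Fin n) : Finset (Fin m) :=
  Finset.univ.filter fun g => ∀ r : Fin n, r < t → g ∉ pick r

/-- The part with label `j` that the strategy `S` offers in arrival `t`. -/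
def part {n m : ℕ} (S : Strategy n m) (pick : Fin n → Finset (Fin m)) (t : Fin n)
    (j : Fin (n - t.val)) : Finset (Fin m) :=
  (remaining pick t).filter fun g => S t (fun r => pick ⟨r.val, r.isLt.trans t.isLt⟩) g = j

/-- `pick` is a possible course of events for the arrival order `σ` (agent `σ t` comes in
arrival `t`) and the strategy `S`: in each arrival the agent takes one of the offered parts of
maximum value to it (ties are broken arbitrarily). -/
def IsPlay {n m : ℕ} (I : Instance n m) (σ : Equiv.Perm (Fin n)) (S : Strategy n m)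
    (pick : Fin n → Finset (Fin m)) : Prop :=
  ∀ t : Fin n, ∃ j : Fin (n - t.val), pick t = part S pick t j ∧
    ∀ j' : Fin (n - t.val), I.value (σ t) (part S pick t j') ≤ I.value (σ t) (part S pick t j)

/-! ### Extending partial plays -/

section
variable {n m : ℕ}

/-- legality of one arrival -/
def Legal (I : Instance n m) (σ : Equiv.Perm (Fin n)) (S : Strategy n m)
    (pick : Fin n → Finset (Fin m)) (t : Fin n) : Prop :=
  ∃ j : Fin (n - t.val), pick t = part S pick t j ∧
    ∀ j' : Fin (n - t.val), I.value (σ t) (part S pick t j') ≤ I.value (σ t) (part S pick t j)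

theorem remaining_congr {pick pick' : Fin n → Finset (Fin m)} {t : Fin n}
    (h : ∀ r, r < t → pick r = pick' r) : remaining pick t = remaining pick' t := by
  unfold remaining
  refine Finset.filter_congr fun g _ => ?_
  exact forall_congr' fun r => imp_congr_right fun hr => by rw [h r hr]

theorem part_congr (S : Strategy n m) {pick pick' : Fin n → Finset (Fin m)} {t : Fin n}
    (h : ∀ r, r < t → pick r = pick' r) (j : Fin (n - t.val)) :
    part S pick t j = part S pick' t j := by
  unfold part
  rw [remaining_congr h]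
  have : (fun r : Fin t.val => pick ⟨r.val, r.isLt.trans t.isLt⟩)
      = fun r : Fin t.val => pick' ⟨r.val, r.isLt.trans t.isLt⟩ := by
    funext r
    exact h _ (Fin.lt_def.2 r.isLt)
  rw [this]

theorem legal_congr (I : Instance n m) (σ : Equiv.Perm (Fin n)) (S : Strategy n m)
    {pick pick' : Fin n → Finset (Fin m)} {t : Fin n}
    (h : ∀ r, r ≤ t → pick r = pick' r) (hl : Legal I σ S pick t) : Legal I σ S pick' t := by
  obtain ⟨j, hj, hmax⟩ := hl
  have h' : ∀ r, r < t → pick r = pick' r := fun r hr => h r hr.le
  refine ⟨j, ?_, fun j' => ?_⟩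
  · rw [← h t le_rfl, hj, part_congr S h']
  · rw [← part_congr S h', ← part_congr S h']
    exact hmax j'

/-- remaining items before the (possibly final) time `t`. -/
def remN (pick : Fin n → Finset (Fin m)) (t : ℕ) : Finset (Fin m) :=
  Finset.univ.filter fun g => ∀ r : Fin n, r.val < t → g ∉ pick r

theorem remN_congr {pick pick' : Fin n → Finset (Fin m)} {t : ℕ}
    (h : ∀ r : Fin n, r.val < t → pick r = pick' r) : remN pick t = remN pick' t := by
  unfold remN
  refine Finset.filter_congr fun g _ => ?_
  exact forall_congr' fun r => imp_congr_right fun hr => by rw [h r hr]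

theorem update_agree (pick : Fin n → Finset (Fin m)) (t : Fin n) (P : Finset (Fin m)) (r : Fin n)
    (hr : r.val < t.val) : Function.update pick t P r = pick r := by
  apply Function.update_of_ne
  intro h
  rw [h] at hr
  exact lt_irrefl _ hr

theorem legal_update (I : Instance n m) (σ : Equiv.Perm (Fin n)) (S : Strategy n m)
    (pick : Fin n → Finset (Fin m)) (t : Fin n) (j : Fin (n - t.val))
    (hmax : ∀ j' : Fin (n - t.val),
      I.value (σ t) (part S pick t j') ≤ I.value (σ t) (part S pick t j))
    (hl : ∀ r : Fin n, r.val < t.val → Legal I σ S pick r) :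
    ∀ r : Fin n, r.val < t.val + 1 →
      Legal I σ S (Function.update pick t (part S pick t j)) r := by
  intro r hr
  have hag : ∀ r : Fin n, r.val < t.val →
      pick r = Function.update pick t (part S pick t j) r :=
    fun r hr => (update_agree pick t _ r hr).symm
  rcases Nat.lt_succ_iff_lt_or_eq.1 hr with hlt | heq
  · exact legal_congr I σ S (fun r' hr' => hag r' (lt_of_le_of_lt (Fin.le_def.1 hr') hlt))
      (hl r hlt)
  · have hrt : r = t := Fin.ext heq
    subst hrt
    have h' : ∀ r', r' < r → pick r' = Function.update pick r (part S pick r j) r' :=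
      fun r' hr' => hag r' (Fin.lt_def.1 hr')
    refine ⟨j, ?_, fun j' => ?_⟩
    · rw [Function.update_self]
      exact part_congr S h' j
    · rw [← part_congr S h', ← part_congr S h']
      exact hmax j'

theorem extend_any (I : Instance n m) (σ : Equiv.Perm (Fin n)) (S : Strategy n m) :
    ∀ (d t : ℕ) (pick : Fin n → Finset (Fin m)), t + d = n →
      (∀ r : Fin n, r.val < t → Legal I σ S pick r) →
      ∃ pick' : Fin n → Finset (Fin m), (∀ r : Fin n, r.val < t → pick' r = pick r) ∧
        IsPlay I σ S pick' := by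
  intro d
  induction d with
  | zero =>
    intro t pick ht hl
    refine ⟨pick, fun _ _ => rfl, fun r => hl r ?_⟩
    have := r.isLt
    omega
  | succ d ih =>
    intro t pick ht hl
    have htn : t < n := by omega
    have hne : Nonempty (Fin (n - (⟨t, htn⟩ : Fin n).val)) := ⟨⟨0, by simp only; omega⟩⟩
    obtain ⟨j, hj⟩ := Finite.exists_max
      (fun j => I.value (σ ⟨t, htn⟩) (part S pick ⟨t, htn⟩ j))
    have hl' := legal_update I σ S pick ⟨t, htn⟩ j hj hl
    obtain ⟨pick', hag, hplay⟩ := ih (t + 1) _ (by omega) hl'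
    refine ⟨pick', fun r hr => ?_, hplay⟩
    rw [hag r (by omega)]
    exact update_agree pick ⟨t, htn⟩ _ r hr

open Pool.Agent.Helper55.SeqPick in
theorem force_play (I : Instance n m) (σ : Equiv.Perm (Fin n)) (S : Strategy n m) (b : ℕ)
    (hzero : ∀ t : Fin n, t.val + b < n → ∀ g, I.v (σ t) g = 0) {G : Finset (Fin m) → Prop}
    {k : ℕ} {R : Finset (Fin m)} (hF : Force b G k R) :
    ∀ (t : ℕ) (pick : Fin n → Finset (Fin m)), t + k = n → remN pick t = R →
      (∀ r : Fin n, r.val < t → Legal I σ S pick r) →
      ∃ (t' : ℕ) (pick' : Fin n → Finset (Fin m)), t' + b ≤ n ∧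
        (∀ r : Fin n, r.val < t' → Legal I σ S pick' r) ∧ G (remN pick' t') := by
  induction hF with
  | goal hk hG =>
    intro t pick ht hR hl
    exact ⟨t, pick, by omega, hl, by rw [hR]; exact hG⟩
  | @step k R hk c hc h ih =>
    intro t pick ht hR hl
    have htn : t < n := by omega
    set f : Fin m → ℕ := fun g =>
      (S ⟨t, htn⟩ (fun r => pick ⟨r.val, r.isLt.trans htn⟩) g).val with hf
    have hfk : ∀ g, f g < k + 1 := by
      intro g
      have := (S ⟨t, htn⟩ (fun r => pick ⟨r.val, r.isLt.trans htn⟩) g).isLt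
      simp only at this
      simp only [hf]
      omega
    have hj : c f < n - t := by
      have := hc f hfk
      omega
    set j : Fin (n - (⟨t, htn⟩ : Fin n).val) := ⟨c f, hj⟩ with hjdef
    have hv0 : ∀ A : Finset (Fin m), I.value (σ ⟨t, htn⟩) A = 0 := by
      intro A
      unfold Instance.value
      refine Finset.sum_eq_zero fun g _ => hzero ⟨t, htn⟩ ?_ g
      simp only
      omega
    have hl' := legal_update I σ S pick ⟨t, htn⟩ j
      (fun j' => by rw [hv0, hv0]) hl
    refine ih f hfk (t + 1) _ (by omega) ?_ hl'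
    -- the remaining set
    ext g
    have hRg : g ∈ R ↔ ∀ r : Fin n, r.val < t → g ∉ pick r := by
      rw [← hR]
      simp [remN]
    simp only [remN, Finset.mem_filter, Finset.mem_univ, true_and]
    rw [hRg]
    have hpart : g ∈ part S pick ⟨t, htn⟩ j ↔
        (∀ r : Fin n, r.val < t → g ∉ pick r) ∧ f g = c f := by
      unfold part remaining
      simp only [Finset.mem_filter, Finset.mem_univ, true_and, hf, hjdef, Fin.ext_iff,
        Fin.lt_def]
    constructor
    · intro hg
      have h1 : ∀ r : Fin n, r.val < t → g ∉ pick r := by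
        intro r hr
        have := hg r (by omega)
        rwa [update_agree pick ⟨t, htn⟩ _ r hr] at this
      refine ⟨h1, fun hcon => ?_⟩
      have h2 := hg ⟨t, htn⟩ (by simp)
      rw [Function.update_self] at h2
      exact h2 (hpart.2 ⟨h1, hcon⟩)
    · rintro ⟨h1, h2⟩ r hr
      rcases Nat.lt_succ_iff_lt_or_eq.1 hr with hlt | heq
      · rw [update_agree pick ⟨t, htn⟩ _ r hlt]
        exact h1 r hlt
      · have hrt : r = ⟨t, htn⟩ := Fin.ext heq
        rw [hrt, Function.update_self]
        intro hcon
        exact h2 (hpart.1 hcon).2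

end

/-! ### The instance -/

section
open Pool.Agent.Helper55.SeqPick

/-- type of an item -/
def ty (N h : ℕ) (g : Fin (N * h)) : Fin N := (finProdFinEquiv.symm g).1

theorem sum_ty {M : Type*} [AddCommMonoid M] (N h : ℕ) (F : Fin N → M) :
    ∑ g : Fin (N * h), F (ty N h g) = ∑ T : Fin N, h • F T := by
  unfold ty
  rw [Fintype.sum_equiv finProdFinEquiv.symm (fun g => F (finProdFinEquiv.symm g).1)
    (fun p : Fin N × Fin h => F p.1) (fun g => rfl)]
  rw [Fintype.sum_prod_type]
  refine Finset.sum_congr rfl fun T _ => ?_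
  simp

theorem W_univ_le (s h : ℕ) (hs : 1 ≤ s) :
    W (ty (2 * s) h) (s + 1) Finset.univ ≤ (2 * h) * ((s + 1) ^ (2 * s + 1) - 1) := by
  have h1 : W (ty (2 * s) h) (s + 1) Finset.univ
      = ∑ T : Fin (2 * s), h • ((s + 1) ^ (2 * s) + (s + 1) ^ T.val) := by
    unfold W wt
    exact sum_ty (2 * s) h (fun T => (s + 1) ^ (2 * s) + (s + 1) ^ T.val)
  rw [h1, ← Finset.smul_sum, Finset.sum_add_distrib, Finset.sum_const, Finset.card_univ,
    Fintype.card_fin, Fin.sum_univ_eq_sum_range (fun i => (s + 1) ^ i)]
  have h2 : ∑ i ∈ range (2 * s), (s + 1) ^ i < (s + 1) ^ (2 * s) :=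
    Nat.geomSum_lt (by omega) (fun k hk => Finset.mem_range.1 hk)
  simp only [smul_eq_mul]
  have h3 : (s + 1) ^ (2 * s + 1) - 1 = s * (s + 1) ^ (2 * s) + ((s + 1) ^ (2 * s) - 1) := by
    have : (s + 1) ^ (2 * s + 1) = s * (s + 1) ^ (2 * s) + (s + 1) ^ (2 * s) := by ring
    have hpos : 0 < (s + 1) ^ (2 * s) := by positivity
    omega
  rw [h3]
  set Q := (s + 1) ^ (2 * s) with hQ
  set Z := ∑ i ∈ range (2 * s), (s + 1) ^ i with hZ
  have h4 : 2 * s * Q + Z ≤ 2 * (s * Q + (Q - 1)) := by
    have h5 : 2 * (s * Q + (Q - 1)) = 2 * s * Q + 2 * (Q - 1) := by ring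
    rw [h5]
    omega
  calc h * (2 * s * Q + Z) ≤ h * (2 * (s * Q + (Q - 1))) := Nat.mul_le_mul_left h h4
    _ = 2 * h * (s * Q + (Q - 1)) := by ring

end

/-- **No constant deficit.**  For every `C` there are `n`, `m`, an instance (even with all item
values `0` or `1`) and an arrival order such that, whatever partitioning strategy is used, ties
can be broken so that some agent `i` leaves with a part of value less than `PROP_i - C`; in fact
of value `0` although `PROP_i > C`. -/
theorem result : ∀ C : ℝ, ∃ (n m : ℕ) (I : Instance n m) (σ : Equiv.Perm (Fin n)),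
    (∀ i g, I.v i g = 0 ∨ I.v i g = 1) ∧
    ∀ S : Strategy n m, ∃ pick : Fin n → Finset (Fin m), IsPlay I σ S pick ∧
      ∃ t : Fin n, I.value (σ t) (pick t) = 0 ∧
        I.value (σ t) (pick t) < I.propShare (σ t) - C := by
  classical
  intro C
  obtain ⟨s, hs1, hsC⟩ : ∃ s : ℕ, 1 ≤ s ∧ C < (s : ℝ) / 2 := by
    obtain ⟨k, hk⟩ := exists_nat_gt (2 * C)
    refine ⟨k + 1, by omega, ?_⟩
    push_cast
    linarith
  set Sub := {U : Finset (Fin (2 * s)) // U.card = s} with hSub
  set b := Fintype.card Sub with hb
  let e : Fin b ≃ Sub := (Fintype.equivFin Sub).symm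
  set ν := (s + 1) ^ (2 * s + 1) - 1 with hν
  set h := Helper55.SeqPick.bound s b ν + b + 1 with hh
  have hb1 : b ≤ 2 * h := by omega
  have hbt : ∀ i : Fin (2 * h), 2 * h - b ≤ i.val → i.val - (2 * h - b) < b := by
    intro i hi
    have := i.isLt
    omega
  -- the instance
  let v : Fin (2 * h) → Fin (2 * s * h) → ℝ := fun i g =>
    if hi : 2 * h - b ≤ i.val then
      (if ty (2 * s) h g ∈ (e ⟨i.val - (2 * h - b), hbt i hi⟩).1 then 0 else 1)
    else 0
  have hv01 : ∀ i g, v i g = 0 ∨ v i g = 1 := by
    intro i g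
    simp only [v]
    split_ifs <;> simp
  let I : Instance (2 * h) (2 * s * h) :=
    ⟨v, fun i g => by rcases hv01 i g with h0 | h0 <;> simp [h0],
      fun i g => by rcases hv01 i g with h0 | h0 <;> simp [h0]⟩
  refine ⟨2 * h, 2 * s * h, I, 1, hv01, fun S => ?_⟩
  -- forcing
  have hF : Helper55.SeqPick.Force b
      (fun R : Finset (Fin (2 * s * h)) => (R.image (ty (2 * s) h)).card ≤ s) (2 * h)
      Finset.univ := by
    refine Helper55.SeqPick.force_main (ty (2 * s) h) s b ν ?_ (2 * h) (by omega) _ ?_
    · rw [hν]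
      exact Nat.sub_lt (by positivity) one_pos
    · exact W_univ_le s h hs1
  obtain ⟨t', pick', ht', hleg, hG⟩ := force_play I 1 S b (by
      intro t ht g
      have : ¬ 2 * h - b ≤ t.val := by omega
      simp only [I, v, Equiv.Perm.coe_one, id_eq, dif_neg this]) hF 0 (fun _ => ∅) (by omega)
    (by ext g; simp [remN]) (fun r hr => absurd hr (Nat.not_lt_zero _))
  obtain ⟨pick, hag, hplay⟩ := extend_any I 1 S (2 * h - t') t' pick' (by omega) hleg
  have hrem : remN pick t' = remN pick' t' := remN_congr hag
  rw [← hrem] at hG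
  obtain ⟨U, hVU, hUs⟩ : ∃ U : Finset (Fin (2 * s)),
      (remN pick t').image (ty (2 * s) h) ⊆ U ∧ U.card = s :=
    Finset.exists_superset_card_eq hG (by simp; omega)
  set u : Fin b := e.symm ⟨U, hUs⟩ with hu
  have hi : 2 * h - b + u.val < 2 * h := by
    have := u.isLt
    omega
  refine ⟨pick, hplay, ⟨2 * h - b + u.val, hi⟩, ?_⟩
  set t : Fin (2 * h) := ⟨2 * h - b + u.val, hi⟩ with ht
  have hvt : ∀ g, v t g = if ty (2 * s) h g ∈ U then 0 else 1 := by
    intro g
    have h1 : 2 * h - b ≤ t.val := by simp only [ht]; omega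
    have h2 : (⟨t.val - (2 * h - b), hbt t h1⟩ : Fin b) = u := by
      apply Fin.ext
      simp only [ht]
      omega
    simp only [v, dif_pos h1, h2, hu, Equiv.apply_symm_apply]
  have hval0 : I.value ((1 : Equiv.Perm (Fin (2 * h))) t) (pick t) = 0 := by
    unfold Instance.value
    refine Finset.sum_eq_zero fun g hg => ?_
    obtain ⟨j, hj, _⟩ := hplay t
    rw [hj] at hg
    have hg' : g ∈ remN pick t' := by
      unfold part remaining at hg
      simp only [Finset.mem_filter, Finset.mem_univ, true_and] at hg
      simp only [remN, Finset.mem_filter, Finset.mem_univ, true_and]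
      intro r hr
      refine hg.1 r (Fin.lt_def.2 ?_)
      simp only [ht]
      omega
    have hgU : ty (2 * s) h g ∈ U := hVU (Finset.mem_image.2 ⟨g, hg', rfl⟩)
    change v t g = 0
    rw [hvt g, if_pos hgU]
  refine ⟨hval0, ?_⟩
  rw [hval0]
  have hprop : I.propShare ((1 : Equiv.Perm (Fin (2 * h))) t) = (s : ℝ) / 2 := by
    unfold Instance.propShare Instance.value
    have h1 : ∑ g : Fin (2 * s * h), I.v ((1 : Equiv.Perm (Fin (2 * h))) t) g
        = ∑ T : Fin (2 * s), h • (if T ∈ U then (0 : ℝ) else 1) := by
      rw [← sum_ty (2 * s) h (fun T => if T ∈ U then (0 : ℝ) else 1)]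
      exact Finset.sum_congr rfl fun g _ => hvt g
    rw [h1, ← Finset.smul_sum]
    have h2 : ∑ T : Fin (2 * s), (if T ∈ U then (0 : ℝ) else 1) = s := by
      have h3 : ∀ T : Fin (2 * s), (if T ∈ U then (0 : ℝ) else 1)
          = 1 - (if T ∈ U then (1 : ℝ) else 0) := by
        intro T
        split_ifs <;> simp
      rw [Finset.sum_congr rfl fun T _ => h3 T, Finset.sum_sub_distrib, Finset.sum_ite_mem,
        Finset.univ_inter, Finset.sum_const, Finset.sum_const, hUs, Finset.card_univ,
        Fintype.card_fin]
      simp only [nsmul_eq_mul]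
      push_cast
      ring
    rw [h2]
    have hpos : (0 : ℝ) < h := by
      have : 0 < h := by omega
      exact_mod_cast this
    simp only [nsmul_eq_mul]
    push_cast
    field_simp
  rw [hprop]
  linarith

end Pool.Agent.Results.MP_e21010_lc.NoConstantDeficit
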